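import Pool.Agent.H3.FC.NDV
import Pool.Agent.H3.FC.NMO
import Pool.Agent.H34.FC.NCR
import Pool.Agent.H35.FC.NMU
import Pool.Agent.H42.FM.DVB
import Pool.Agent.H48.FC.NTR
import Pool.Agent.H55.FC.NAB
import Pool.Agent.H55.FM.SFS
import Pool.Agent.H56.FC.NMT
import Pool.Agent.H61.FM.SUP
import Pool.Agent.H68.FC.NCO
import Pool.Agent.H69.FC.NC2
import Pool.Agent.H69.FC.NF2
import Pool.Agent.H70.FC.NF1
import Pool.Agent.H86.FM.SQD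
import Pool.Agent.H90.FC.NPB
import Pool.Agent.H94.FC.NFS
import Pool.Agent.H96.FC.NSP

/-!
# The fourth moment of the complete family: assembly of the analytic part
-/

set_option autoImplicit false

namespace Pool.Agent.H61.FC

open Pool.Agent.H31.CN Pool.Agent.H89.FM Pool.Agent.H61.FM Pool.Agent.H89.FC

theorem a_DVBc : T_DVBc := Pool.Agent.H3.FC.pf_DVBc Pool.Agent.H42.FM.pf_DVB

theorem a_MULc : T_MULc := Pool.Agent.H35.FC.pf_MULc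

theorem a_SPTc : T_SPTc := Pool.Agent.H96.FC.pf_SPTc a_DVBc

theorem a_ABSc : T_ABSc := Pool.Agent.H55.FC.pf_ABSc a_SPTc

theorem partN (hTMF : T_TMFc) (hLFK : T_LFKc) (hHBD : T_HBDc) (hGML : T_GMLc) (hKRB : T_KRBc) :
    T_FM2c ∧ T_CORc ∧ T_CO2c := by
  have hMOS : T_MOSc := Pool.Agent.H3.FC.pf_MOSc hTMF a_MULc Pool.Agent.H86.FM.pf_SQD
    Pool.Agent.H55.FM.pf_SFS a_DVBc
  have hPBD : T_PBDc := Pool.Agent.H90.FC.pf_PBDc hLFK hKRB a_ABSc hGML a_SPTc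
  have hTRB : T_TRBc := Pool.Agent.H48.FC.pf_TRBc hPBD a_SPTc
  have hCRD : T_CRDc := Pool.Agent.H34.FC.pf_CRDc hHBD
  have hMOT : T_MOTc := Pool.Agent.H56.FC.pf_MOTc hMOS a_SPTc hTRB hCRD
  have hFMS : T_FMSc := Pool.Agent.H94.FC.pf_FMSc hMOT hPBD a_SPTc
  have hFM1 : T_FM1c := Pool.Agent.H70.FC.pf_FM1c Pool.Agent.H61.FM.pf_SUP hFMS hTRB
  have hFM2 : T_FM2c := Pool.Agent.H69.FC.pf_FM2c hFM1
  exact ⟨hFM2, Pool.Agent.H68.FC.pf_CORc hFM2, Pool.Agent.H69.FC.pf_CO2c hFM2⟩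

end Pool.Agent.H61.FC
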